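import Pool.Agent.N754.GF.Sq

/-!
# Project GF (helper754), EQV (helper216): transport of a structure along an equivalence of index sets
-/

set_option autoImplicit false

open MvPolynomial FF Pool.Agent.W603.LV Filter

namespace Pool.Agent.N216.GF

open Pool.Agent.N754.GF Pool.Agent.N754.FV

theorem eqv : EQV := by
  intro k Ω α _ _ _ D 𝒰 ι ι' _ _ e A b h
  have hev : ∀ (F : MvPolynomial ι' k) (t : α), aeval (fun i => b i t) (rename e.symm F) =
      aeval (fun i' : ι' => b (e.symm i') t) F := by
    intro F t
    rw [aeval_rename]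
    rfl
  have hne : ∀ F : MvPolynomial ι' k, F ≠ 0 → rename e.symm F ≠ 0 := fun F hF h0 =>
    hF (rename_injective _ e.symm.injective (by rw [h0, map_zero]))
  have hback : ∀ F : MvPolynomial ι k, rename e.symm (rename e F) = F := by
    intro F
    rw [rename_rename, e.symm_comp_self]
    exact rename_id_apply F
  have hback' : ∀ F : MvPolynomial ι' k, rename e (rename e.symm F) = F := by
    intro F
    rw [rename_rename, e.self_comp_symm]
    exact rename_id_apply F
  have hrel : ∀ F G : MvPolynomial ι' k, IsRelPrime F G →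
      IsRelPrime (rename e.symm F) (rename e.symm G) := by
    intro F G hFG d h1 h2
    have h3 := map_dvd (rename e : MvPolynomial ι k →ₐ[k] MvPolynomial ι' k) h1
    have h4 := map_dvd (rename e : MvPolynomial ι k →ₐ[k] MvPolynomial ι' k) h2
    rw [hback'] at h3 h4
    have h5 := (hFG h3 h4).map (rename e.symm : MvPolynomial ι' k →ₐ[k] MvPolynomial ι k)
    rwa [hback] at h5
  refine ⟨fun i => h.slow _, fun i => h.unit _, ?_, ?_, ?_, ?_⟩
  · intro F hF
    filter_upwards [h.ne _ (hne F hF)] with t ht
    rwa [hev] at ht
  · intro F hF S' hS' m hm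
    have h1 := h.max _ (hne F hF) S' hS' (fun t P => Finsupp.mapDomain e.symm (m t P)) (by
      intro t P
      have h2 := hm t P
      rw [mem_support_iff] at h2 ⊢
      rwa [coeff_rename_mapDomain _ e.symm.injective])
    refine Slow.mono h1 (Eventually.of_forall fun t => le_of_eq ?_)
    refine Finset.sum_congr rfl fun P _ => ?_
    rw [hev, ← Equiv.sum_comp e.symm]
    congr 1
    refine Finset.sum_congr rfl fun i _ => ?_
    rw [Finsupp.mapDomain_apply e.symm.injective]
  · intro F G hF hFG
    obtain ⟨Z, hZ, h1⟩ := h.gcd _ _ (hne F hF) (hrel F G hFG)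
    refine ⟨Z, hZ, ?_⟩
    filter_upwards [h1] with t ht
    intro P hP
    have := ht P hP
    rwa [hev, hev] at this
  · rintro F hF ⟨j, hj, hj2⟩ hX
    have hirr : Irreducible (rename e.symm F) := by
      have := (MulEquiv.irreducible_iff (renameEquiv k e.symm : MvPolynomial ι' k ≃ₐ[k]
        MvPolynomial ι k) (x := F)).2 hF
      exact this
    obtain ⟨Z, hZ, h1⟩ := h.trunc (rename e.symm F) hirr ⟨e.symm j, hj, by
      rw [degreeOf_rename_of_injective e.symm.injective]
      exact hj2⟩ (by
      intro i hi has
      have h2 := has.map (rename e : MvPolynomial ι k →ₐ[k] MvPolynomial ι' k)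
      rw [hback', rename_X] at h2
      refine hX (e i) ?_ h2
      rw [e.symm_apply_apply]
      exact hi)
    refine ⟨Z, hZ, ?_⟩
    filter_upwards [h1] with t ht
    intro P hP
    have := ht P hP
    rwa [hev] at this

end Pool.Agent.N216.GF
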